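import Pool.Agent.H14.Sr1

namespace Pool.Agent.Results.MP_405423_al.Quot
open Pool.Agent.H14.Sr Finset

/-- number of r-tuples on which the word w takes the value g -/
noncomputable def Nw {G : Type} [Group G] {r : ℕ} (w : FreeGroup (Fin r)) (g : G) : ℕ :=
  Nat.card {t : Fin r → G // FreeGroup.lift t w = g}

/-- the standard inner product of functions on a finite group -/
noncomputable def ip {G : Type} (f χ : G → ℂ) : ℂ :=
  (Nat.card G : ℂ)⁻¹ * ∑ᶠ g, f g * (starRingEnd ℂ) (χ g)

/-- every coefficient of every word counting function at an irreducible character is an integer -/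
def SemiRational (G : Type) [Group G] : Prop :=
  ∀ r, 1 ≤ r → ∀ (w : FreeGroup (Fin r)) (n : ℕ) (ρ : Representation ℂ G (Fin n → ℂ)),
    ρ.IsIrreducible → ∃ m : ℤ, ip (fun g => (Nw w g : ℂ)) ρ.character = m

lemma ip_eq {G : Type} [Group G] [Fintype G] {r : ℕ} (w : FreeGroup (Fin r)) (χ : G → ℂ) :
    ip (fun g => (Nw w g : ℂ)) χ =
      (Fintype.card G : ℂ)⁻¹ * ∑ t : Fin r → G, (starRingEnd ℂ) (χ (FreeGroup.lift t w)) := by
  classical
  unfold ip
  rw [finsum_eq_sum_of_fintype, Nat.card_eq_fintype_card,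
    ← Finset.sum_fiberwise (s := univ) (g := fun t : Fin r → G => FreeGroup.lift t w)]
  congr 1
  refine Finset.sum_congr rfl fun g _ => ?_
  rw [Finset.sum_congr rfl (g := fun _ => (starRingEnd ℂ) (χ g)), Finset.sum_const, nsmul_eq_mul]
  · simp only [Nw]
    rw [Nat.card_eq_fintype_card, Fintype.card_subtype]
  · intro a ha
    rw [(mem_filter.1 ha).2]

lemma infl {G Q V : Type} [Group G] [Group Q] [AddCommGroup V] [Module ℂ V] (p : G →* Q)
    (hp : Function.Surjective p) (ρ : Representation ℂ Q V) (h : ρ.IsIrreducible) :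
    Representation.IsIrreducible (k := ℂ) (G := G) (V := V) (ρ.comp p) := by
  let e : Subrepresentation (A := ℂ) (G := G) (W := V) (ρ.comp p) ≃o Subrepresentation ρ :=
    { toFun := fun S => ⟨S.toSubmodule, fun g v hv => by
        obtain ⟨a, rfl⟩ := hp g
        exact S.apply_mem_toSubmodule a hv⟩
      invFun := fun S => ⟨S.toSubmodule, fun g v hv => S.apply_mem_toSubmodule (p g) hv⟩
      left_inv := fun _ => rfl
      right_inv := fun _ => rfl
      map_rel_iff' := Iff.rfl }
  exact e.isSimpleOrder_iff.2 h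

theorem result (G : Type) [Group G] [Finite G] (N : Subgroup G) [N.Normal]
    (hG : SemiRational G) : SemiRational (G ⧸ N) := by
  classical
  let _inst := Fintype.ofFinite G
  let _inst2 := Fintype.ofFinite (G ⧸ N)
  intro r hr w n ρ hρ
  set p := QuotientGroup.mk' N with hpd
  have hp : Function.Surjective p := QuotientGroup.mk'_surjective N
  obtain ⟨m, hm⟩ := hG r hr w n (ρ.comp p) (infl p hp ρ hρ)
  rw [ip_eq] at hm ⊢
  have hP : Function.Surjective (p.compLeft (Fin r)) := fun s =>
    ⟨fun i => (hp (s i)).choose, funext fun i => (hp (s i)).choose_spec⟩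
  obtain ⟨c, hc, hs⟩ := sum_surj (p.compLeft (Fin r)) hP
  have e1 : ∀ t : Fin r → G, Representation.character (ρ.comp p) (FreeGroup.lift t w) =
      ρ.character (FreeGroup.lift (p.compLeft (Fin r) t) w) := by
    intro t
    have : p.comp (FreeGroup.lift t) = FreeGroup.lift (p.compLeft (Fin r) t) := by
      ext i; simp
    rw [← this]; rfl
  simp only [e1] at hm
  rw [hs fun s => (starRingEnd ℂ) (ρ.character (FreeGroup.lift s w))] at hm
  have h1 := hs fun _ => 1
  simp only [sum_const, card_univ, Fintype.card_fun, Fintype.card_fin, nsmul_eq_mul, mul_one,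
    Nat.cast_pow] at h1
  have g0 : (Fintype.card G : ℂ) ≠ 0 := by exact_mod_cast Fintype.card_ne_zero
  have q0 : (Fintype.card (G ⧸ N) : ℂ) ≠ 0 := by exact_mod_cast Fintype.card_ne_zero
  have c0 : (c : ℂ) ≠ 0 := by exact_mod_cast hc.ne'
  obtain ⟨r, rfl⟩ : ∃ s, r = s + 1 := ⟨r - 1, by omega⟩
  cases r with
  | zero =>
    refine ⟨m, ?_⟩
    rw [← hm]
    simp only [zero_add, pow_one] at h1
    rw [h1]
    field_simp
  | succ r =>
    obtain ⟨deg, x, hx, hw⟩ := exists_deg w
    let _inst3 : Fintype (FreeGroup (Fin (r + 2)) →* G ⧸ N) := Fintype.ofEquiv _ FreeGroup.lift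
    have hi := integral_avg deg x hx w hw (fun g => (starRingEnd ℂ) (ρ.character g))
      (fun g h => by rw [Representation.char_conj])
      (fun g => map_isIntegral_int (starRingEnd ℂ) (char_integral ρ g))
    rw [← Equiv.sum_comp FreeGroup.lift] at hi
    set S := ∑ s : Fin (r + 1 + 1) → G ⧸ N, (starRingEnd ℂ) (ρ.character (FreeGroup.lift s w))
    have e : (Fintype.card (G ⧸ N) : ℂ)⁻¹ * S =
        algebraMap ℚ ℂ ((m * Fintype.card G : ℚ) / (c * Fintype.card (G ⧸ N))) := by
      simp only [eq_ratCast, Rat.cast_div, Rat.cast_mul, Rat.cast_intCast, Rat.cast_natCast]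
      rw [← hm]
      field_simp
    rw [e] at hi ⊢
    rw [isIntegral_algebraMap_iff (algebraMap ℚ ℂ).injective] at hi
    obtain ⟨y, hy⟩ := IsIntegrallyClosed.isIntegral_iff.1 hi
    exact ⟨y, by rw [← hy]; simp⟩

end Pool.Agent.Results.MP_405423_al.Quot
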